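import Pool.Agent.R999.IonTF2

/-!
# Reflected Thomas-Fermi density differences are not monotone in the electron number

For every `γ > 0` there is a single smeared nucleus in the half-space for which the difference
`ρ_λ(x) - ρ_λ(x*)` is larger for some `λ' < Z` than for the neutral density `λ = Z`.
-/

set_option autoImplicit false

open MeasureTheory Set Filter Topology Metric
open scoped ENNReal RealInnerProductSpace

namespace Pool.Agent.Results.MP_d10cfe_mp.NotMonotone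

/-- Three dimensional Euclidean space. -/
abbrev R3 := EuclideanSpace ℝ (Fin 3)

/-- `ρ ≥ 0` and `ρ ∈ L¹ ∩ L^{5/3}`. -/
structure Density (ρ : R3 → ℝ) : Prop where
  nonneg : ∀ x, 0 ≤ ρ x
  integrable : Integrable ρ
  integrable_rpow : Integrable (fun x => ρ x ^ (5/3 : ℝ))

/-- The Thomas-Fermi functional with external potential `V`. -/
noncomputable def energy (γ : ℝ) (V ρ : R3 → ℝ) : ℝ :=
  3/5 * γ * (∫ x, ρ x ^ (5/3 : ℝ)) - (∫ x, V x * ρ x) + 1/2 * ∫ x, ∫ y, ρ x * ρ y / ‖x - y‖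

/-- The electronic potential `|x|⁻¹ * ρ`. -/
noncomputable def pot (ρ : R3 → ℝ) (x : R3) : ℝ := ∫ y, ρ y / ‖x - y‖

/-- `ρ` is the Thomas-Fermi density with electron number `lam`: it minimises the functional among
the densities with `∫ρ = lam`, and it satisfies the Thomas-Fermi equation
`γ ρ^{2/3} = (φ - μ)_+`, `φ = V - |x|⁻¹ * ρ`, at every point, for some `μ ≥ 0`. -/
def IsTFDensity (γ : ℝ) (V : R3 → ℝ) (lam : ℝ) (ρ : R3 → ℝ) : Prop :=
  Density ρ ∧ ∫ x, ρ x = lam ∧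
    (∀ σ, Density σ → ∫ x, σ x = lam → energy γ V ρ ≤ energy γ V σ) ∧
    ∃ μ : ℝ, 0 ≤ μ ∧ ∀ x, γ * ρ x ^ (2/3 : ℝ) = max (V x - pot ρ x - μ) 0

/-- `k` nuclei (positions and charge distributions relative to the positions) and a plane
`{x | ⟪n, x⟫ = t}`. -/
structure Config (k : ℕ) where
  pos : Fin k → R3
  nuc : Fin k → Measure R3
  n : R3
  t : ℝ

namespace Config

variable {k : ℕ} (c : Config k)

/-- The open half-space `P*`. -/
def half : Set R3 := {x | c.t < ⟪c.n, x⟫}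

/-- The mirror image `x*` of `x` in the plane. -/
noncomputable def mirror (x : R3) : R3 := x - (2 * (⟪c.n, x⟫ - c.t)) • c.n

/-- The nuclear potential `V`. -/
noncomputable def V (x : R3) : ℝ := ∑ i, ∫ y, 1 / ‖x - c.pos i - y‖ ∂(c.nuc i)

/-- The total nuclear charge `Z`. -/
noncomputable def Z : ℝ := ∑ i, (c.nuc i).real univ

/-- The assumptions of the problem: the charges are nonzero finite measures; every nucleus either
lies in the plane and is spherically symmetric, or its (closed) support lies in `P*`. -/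
structure Valid : Prop where
  unit : ‖c.n‖ = 1
  finite : ∀ i, IsFiniteMeasure (c.nuc i)
  nonzero : ∀ i, c.nuc i ≠ 0
  side : ∀ i, (⟪c.n, c.pos i⟫ = c.t ∧ ∀ L : R3 ≃ₗᵢ[ℝ] R3, (c.nuc i).map L = c.nuc i) ∨
    (∃ K : Set R3, IsClosed K ∧ K ⊆ c.half ∧ c.nuc i {y | c.pos i + y ∉ K} = 0)

end Config

lemma Density.to {ρ : R3 → ℝ} (h : Density ρ) : Pool.Agent.R999.TFMin.Dens ρ :=
  ⟨h.nonneg, h.integrable, h.integrable_rpow⟩

lemma Density.of {ρ : R3 → ℝ} (h : Pool.Agent.R999.TFMin.Dens ρ) : Density ρ :=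
  ⟨h.nonneg, h.int, h.int_pow⟩

lemma IsTFDensity.to {γ : ℝ} {V : R3 → ℝ} {lam : ℝ} {ρ : R3 → ℝ} (h : IsTFDensity γ V lam ρ) :
    Pool.Agent.R999.TFMin.IsTF γ V lam ρ :=
  ⟨h.1.to, h.2.1, fun σ hσ hm => h.2.2.1 σ (Density.of hσ) hm, h.2.2.2⟩

lemma IsTFDensity.of {γ : ℝ} {V : R3 → ℝ} {lam : ℝ} {ρ : R3 → ℝ}
    (h : Pool.Agent.R999.TFMin.IsTF γ V lam ρ) : IsTFDensity γ V lam ρ :=
  ⟨Density.of h.1, h.2.1, fun σ hσ hm => h.2.2.1 σ hσ.to hm, h.2.2.2⟩

/-- **Disproof of Q1, for every `γ > 0`.** There are a nucleus with charge distribution supported in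
`P*` (one nucleus, total charge `Z`), an electron number `0 < λ' < Z` and a point `x ∈ P*`, such that
the Thomas-Fermi densities `ρ_Z` and `ρ_{λ'}` exist and
`ρ_Z(x) - ρ_Z(x*) < ρ_{λ'}(x) - ρ_{λ'}(x*)`. -/
theorem result : ∀ γ : ℝ, 0 < γ → ∃ c : Config 1, c.Valid ∧ ∃ lam : ℝ, 0 < lam ∧ lam < c.Z ∧
    ∃ x ∈ c.half, (∃ ρ, IsTFDensity γ c.V c.Z ρ) ∧ (∃ ρ', IsTFDensity γ c.V lam ρ') ∧
      ∀ ρ ρ' : R3 → ℝ, IsTFDensity γ c.V c.Z ρ → IsTFDensity γ c.V lam ρ' →
        ρ x - ρ (c.mirror x) < ρ' x - ρ' (c.mirror x) := by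
  intro γ hγ
  obtain ⟨ε, s, hε, hs, hds, hineq⟩ := Pool.Agent.R999.Ion.exists_ion
  have hsc := Pool.Agent.R999.IonTF.sc_pos hγ
  set e0 : R3 := EuclideanSpace.single 0 1 with he0
  have hn0 : ‖e0‖ = 1 := by rw [he0]; simp
  have hin : ⟪e0, e0⟫ = (1:ℝ) := by rw [real_inner_self_eq_norm_sq, hn0]; norm_num
  set D : ℝ := (2 + s) / 2 with hD
  set R : R3 := D • e0 with hR
  set w : ℝ → ℝ≥0∞ := fun t => ENNReal.ofReal
    (Pool.Agent.R999.IonTF.sc γ ^ 3 * Pool.Agent.R999.IonTF.m1 t) with hw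
  have hndn := Pool.Agent.R999.IonTF.dens_nd hγ
  have hndm : Measurable (Pool.Agent.R999.IonTF.nd γ) := by
    unfold Pool.Agent.R999.IonTF.nd
    exact measurable_const.mul (Pool.Agent.R999.IonTF.m1_meas.comp measurable_norm)
  set m : Measure R3 := volume.withDensity fun y =>
    ENNReal.ofReal (Pool.Agent.R999.IonTF.nd γ y) with hm
  have hmtot : m univ = ENNReal.ofReal (∫ y, Pool.Agent.R999.IonTF.nd γ y) := by
    rw [hm, withDensity_apply _ MeasurableSet.univ, Measure.restrict_univ,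
      ofReal_integral_eq_lintegral_ofReal hndn.int (ae_of_all _ hndn.nonneg)]
  have hfin : IsFiniteMeasure m := ⟨by rw [hmtot]; exact ENNReal.ofReal_lt_top⟩
  have hI0 := Pool.Agent.R999.IonTF.mass_pos hγ hε hs hds
  have hIlt := Pool.Agent.R999.IonTF.mass_lt hγ hε
  have hneu := Pool.Agent.R999.IonTF.mass_neutral hγ
  have hZpos : 0 < ∫ y, Pool.Agent.R999.IonTF.nd γ y := by rw [hneu]; linarith
  let c : Config 1 := ⟨fun _ => R, fun _ => m, e0, 0⟩
  have hZ : c.Z = ∫ y, Pool.Agent.R999.IonTF.nd γ y := by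
    show ∑ i : Fin 1, m.real univ = _
    rw [Fin.sum_univ_one, Measure.real, hmtot, ENNReal.toReal_ofReal hZpos.le]
  have hV : c.V = fun x => Pool.Agent.TH791.Cl.pot (Pool.Agent.R999.IonTF.nd γ) (x - R) := by
    funext x
    show ∑ i : Fin 1, ∫ y, 1 / ‖x - R - y‖ ∂m = _
    rw [Fin.sum_univ_one, hm, integral_withDensity_eq_integral_toReal_smul
      hndm.ennreal_ofReal (ae_of_all _ fun y => ENNReal.ofReal_lt_top)]
    unfold Pool.Agent.TH791.Cl.pot
    refine integral_congr_ae (ae_of_all _ fun y => ?_)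
    show (ENNReal.ofReal (Pool.Agent.R999.IonTF.nd γ y)).toReal • (1 / ‖x - R - y‖) = _
    rw [ENNReal.toReal_ofReal (hndn.nonneg y), smul_eq_mul]
    ring
  have hVs : c.V = Pool.Agent.TH791.Cl.pot (fun y => Pool.Agent.R999.IonTF.nd γ (y - R)) := by
    rw [hV]
    funext x
    rw [Pool.Agent.R999.IonTF.pot_shift]
  have hVint : ∀ σ, Pool.Agent.R999.TFMin.Dens σ → Integrable fun x => c.V x * σ x := by
    intro σ hσ
    have := (Pool.Agent.R999.IonTF.dens_shift hndn R).pot_int hσ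
    rw [hVs]
    refine this.congr (ae_of_all _ fun x => mul_comm _ _)
  -- the two Thomas-Fermi densities
  set ρZ : R3 → ℝ := fun x => Pool.Agent.R999.IonTF.rZ γ (x - R) with hρZ
  set ρI : R3 → ℝ := fun x => Pool.Agent.R999.IonTF.rI γ ε (x - R) with hρI
  have dZ : Pool.Agent.R999.TFMin.Dens ρZ :=
    Pool.Agent.R999.IonTF.dens_shift (Pool.Agent.R999.IonTF.dens_rZ hγ) R
  have dI : Pool.Agent.R999.TFMin.Dens ρI :=
    Pool.Agent.R999.IonTF.dens_shift (Pool.Agent.R999.IonTF.dens_rI hγ hε.le) R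
  have mZ : ∫ x, ρZ x = c.Z := by
    rw [hZ, hneu, hρZ, integral_sub_right_eq_self (μ := (volume : Measure R3))
      (Pool.Agent.R999.IonTF.rZ γ) R]
  have mI : ∫ x, ρI x = ∫ y, Pool.Agent.R999.IonTF.rI γ ε y := by
    rw [hρI, integral_sub_right_eq_self (μ := (volume : Measure R3))
      (Pool.Agent.R999.IonTF.rI γ ε) R]
  have eqZ : ∀ x, γ * ρZ x ^ (2/3 : ℝ) = max (c.V x - Pool.Agent.TH791.Cl.pot ρZ x - 0) 0 := by
    intro x
    rw [hρZ, Pool.Agent.R999.IonTF.pot_shift, hV]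
    simp only [sub_zero]
    rw [Pool.Agent.R999.IonTF.neutral_pot (γ := γ) (x - R)]
    exact Pool.Agent.R999.IonTF.tf_eq hγ _
  set μ : ℝ := 4 * Real.pi * Pool.Agent.R999.IonTF.sc γ ^ 3 *
    (∫ t in Ioi (0:ℝ), t ^ 1 * Pool.Agent.R999.Ion.g (Pool.Agent.R999.Ion.ds ε) t) +
    γ * Pool.Agent.R999.IonTF.sc γ ^ 2 * ε with hμ
  have hμ0 : 0 ≤ μ := by
    have h1 : 0 ≤ ∫ t in Ioi (0:ℝ), t ^ 1 * Pool.Agent.R999.Ion.g (Pool.Agent.R999.Ion.ds ε) t := by
      refine setIntegral_nonneg measurableSet_Ioi fun t ht => ?_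
      have ht' : (0:ℝ) < t := ht
      have := Pool.Agent.R999.IonTF.g_pos hε ht'.le
      positivity
    have := Real.pi_pos
    positivity
  have eqI : ∀ x, γ * ρI x ^ (2/3 : ℝ) = max (c.V x - Pool.Agent.TH791.Cl.pot ρI x - μ) 0 := by
    intro x
    rw [hρI, Pool.Agent.R999.IonTF.pot_shift, hV]
    simp only
    have h1 := Pool.Agent.R999.IonTF.neutral_pot (γ := γ) (x - R)
    have h2 := Pool.Agent.R999.IonTF.ion_pot (γ := γ) hε.le (x - R)
    have h3 : Pool.Agent.TH791.Cl.pot (Pool.Agent.R999.IonTF.nd γ) (x - R) -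
        Pool.Agent.TH791.Cl.pot (Pool.Agent.R999.IonTF.rI γ ε) (x - R) - μ =
        γ * Pool.Agent.R999.IonTF.sc γ ^ 2 *
          (Pool.Agent.R999.Ion.u ‖x - R‖ - Pool.Agent.R999.Ion.ds ε ‖x - R‖) := by
      rw [hμ]; linarith
    rw [h3]
    exact Pool.Agent.R999.IonTF.tf_eq hγ _
  have tZ : Pool.Agent.R999.TFMin.IsTF γ c.V c.Z ρZ := by
    refine ⟨dZ, mZ, fun σ hσ hσm => ?_, 0, le_rfl, eqZ⟩
    exact (Pool.Agent.R999.TFMin.tf_min hγ hVint dZ (ae_of_all _ eqZ) hσ (by rw [hσm, mZ])).1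
  have tI : Pool.Agent.R999.TFMin.IsTF γ c.V (∫ y, Pool.Agent.R999.IonTF.rI γ ε y) ρI := by
    refine ⟨dI, mI, fun σ hσ hσm => ?_, μ, hμ0, eqI⟩
    exact (Pool.Agent.R999.TFMin.tf_min hγ hVint dI (ae_of_all _ eqI) hσ (by rw [hσm, mI])).1
  -- geometry
  have hDpos : 3 ≤ D := by rw [hD]; linarith
  set x : R3 := ((s - 2) / 2) • e0 with hx
  have hxin : ⟪e0, x⟫ = (s - 2) / 2 := by rw [hx, inner_smul_right, hin, mul_one]
  have hmir : c.mirror x = (-((s - 2) / 2)) • e0 := by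
    show x - (2 * (⟪e0, x⟫ - 0)) • e0 = _
    rw [hxin, hx, ← sub_smul]
    congr 1
    ring
  have hn1 : ‖x - R‖ = 2 := by
    rw [hx, hR, ← sub_smul, norm_smul, hn0, mul_one, hD, Real.norm_eq_abs]
    rw [show (s - 2) / 2 - (2 + s) / 2 = -2 by ring]
    norm_num
  have hn2 : ‖c.mirror x - R‖ = s := by
    rw [hmir, hR, ← sub_smul, norm_smul, hn0, mul_one, hD, Real.norm_eq_abs]
    rw [show -((s - 2) / 2) - (2 + s) / 2 = -s by ring, abs_neg, abs_of_pos (by linarith)]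
  refine ⟨c, ⟨hn0, fun _ => hfin, fun _ h0 => ?_, fun _ => Or.inr ?_⟩,
    ∫ y, Pool.Agent.R999.IonTF.rI γ ε y, hI0, by rw [hZ, hneu]; exact hIlt, x, ?_,
    ⟨ρZ, IsTFDensity.of tZ⟩, ⟨ρI, IsTFDensity.of tI⟩, fun ρ ρ' h1 h2 => ?_⟩
  · have h1 : m univ = 0 := by
      have : m = 0 := h0
      rw [this]; simp
    rw [hmtot, ENNReal.ofReal_eq_zero] at h1
    linarith
  · refine ⟨closedBall R 1, isClosed_closedBall, fun y hy => ?_, ?_⟩
    · show (0:ℝ) < ⟪e0, y⟫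
      rw [mem_closedBall, dist_eq_norm] at hy
      have h1 : ⟪e0, y⟫ = ⟪e0, y - R⟫ + D := by
        rw [inner_sub_right, hR, inner_smul_right, hin]; ring
      have h2 : |⟪e0, y - R⟫| ≤ ‖e0‖ * ‖y - R‖ := abs_real_inner_le_norm _ _
      rw [hn0, one_mul] at h2
      have h3 := neg_abs_le ⟪e0, y - R⟫
      rw [h1]
      linarith
    · show m {y | R + y ∉ closedBall R 1} = 0
      have hset : {y : R3 | R + y ∉ closedBall R 1} = (closedBall 0 1)ᶜ := by
        ext y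
        simp [mem_closedBall, dist_eq_norm]
      rw [hset, hm, withDensity_apply _ measurableSet_closedBall.compl]
      rw [lintegral_eq_zero_iff hndm.ennreal_ofReal]
      filter_upwards [ae_restrict_mem measurableSet_closedBall.compl] with y hy
      have hy' : 1 < ‖y‖ := by simpa using hy
      show ENNReal.ofReal (Pool.Agent.R999.IonTF.nd γ y) = 0
      unfold Pool.Agent.R999.IonTF.nd Pool.Agent.R999.IonTF.m1
      rw [if_neg (not_lt.2 hy'.le)]
      simp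
  · show (0:ℝ) < ⟪e0, x⟫
    rw [hxin]; linarith
  · have hZpos' : 0 < c.Z := by rw [hZ]; exact hZpos
    have e1 : ρ = ρZ := h1.to.unique hγ hVint hZpos' tZ
    have e2 : ρ' = ρI := h2.to.unique hγ hVint hI0 tI
    rw [e1, e2, hρZ, hρI]
    simp only
    unfold Pool.Agent.R999.IonTF.rZ Pool.Agent.R999.IonTF.rI
    rw [hn1, hn2, hds, sub_self]
    have hP0 : Pool.Agent.R999.Ion.P 0 = 0 := Pool.Agent.R999.Ion.P_of_nonpos le_rfl
    rw [hP0]
    have h3 : 0 < Pool.Agent.R999.IonTF.sc γ ^ 3 := by positivity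
    nlinarith [mul_lt_mul_of_pos_left hineq h3]

end Pool.Agent.Results.MP_d10cfe_mp.NotMonotone
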